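import Mathlib
import Pool.Agent.H27.VVI

namespace Pool.Agent.Results.MP_e5975b_an.AllDisc

open Pool.Agent.H27.VVI

theorem result : ∃ (K : Set (En 3)) (F : Fin 2 → En 3 → En 3),
    K.Nonempty ∧ IsClosed K ∧ Convex ℝ K ∧ (∀ l, ContinuousOn (F l) K) ∧ Mono F K ∧ Symm F K ∧
    ((SolW F K).Nonempty ∧ ¬ IsPreconnected (SolW F K)) ∧
    ((Sol F K).Nonempty ∧ ¬ IsPreconnected (Sol F K)) ∧
    ((SolPr F K).Nonempty ∧ ¬ IsPreconnected (SolPr F K)) := by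
  refine ⟨K2, F2, ⟨_, (pr_sub _ _ p2).1⟩, K2_closed, K2_convex, fun l => ?_, fun l x _ y _ => ?_,
    fun l => ⟨Set.univ, isOpen_univ, Set.subset_univ _, ?_, fun x _ i j => ?_⟩,
    ex2 _ ((pr_sub _ _).trans (sol_sub _ _)) le_rfl, ex2 _ (pr_sub _ _) (sol_sub _ _),
    ex2 _ le_rfl ((pr_sub _ _).trans (sol_sub _ _))⟩
  all_goals obtain ⟨c, hc⟩ := F2_const l
  all_goals rw [hc]
  · exact continuousOn_const
  · simp
  · exact differentiableOn_const c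
  · simp

end Pool.Agent.Results.MP_e5975b_an.AllDisc
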